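import Pool.Agent.helper66.LIN.Spec

set_option autoImplicit false

/-!
# Row lin:VSN (MP_60c1a7_co): an available point is visible from some live point
-/

namespace LSH.Lin

open Classical in
theorem VSN : VSN_stmt := by
  intro P L σ X hC hL p hp hσ c hc
  have hne : L.toFinset.Nonempty := by
    rw [Multiset.toFinset_nonempty]
    exact hL
  obtain ⟨i, hi, hmin⟩ := Finset.exists_min_image L.toFinset (fun j => |j.1.2 - p.2|) hne
  rw [Multiset.mem_toFinset] at hi
  have hmin' : ∀ j ∈ L, |i.1.2 - p.2| ≤ |j.1.2 - p.2| := fun j hj => hmin j (Multiset.mem_toFinset.2 hj)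
  have hgen := hC.gen
  have heq : ∀ a ∈ P, ∀ b ∈ P, a.2 = b.2 → a = b := by
    intro a ha b hb hab
    by_contra hne
    exact (hgen a (Finset.mem_coe.2 ha) b (Finset.mem_coe.2 hb) hne).2 hab
  have hip : i.1.2 ≠ p.2 := by
    intro h
    have h1 := heq i.1 (hC.mem i hi) p hp h
    have h2 := hC.live i hi
    rw [h1] at h2
    linarith
  have hvis : Vis L i.1 p.2 := by
    intro j hj hji hmem
    have h1 := hmin' j hj
    have h2 : j.1.2 = i.1.2 := by
      rcases le_total i.1.2 p.2 with h | h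
      · rw [Set.uIcc_of_le h] at hmem
        obtain ⟨h3, h4⟩ := hmem
        rw [abs_of_nonpos (by linarith), abs_of_nonpos (by linarith)] at h1
        linarith
      · rw [Set.uIcc_of_ge h] at hmem
        obtain ⟨h3, h4⟩ := hmem
        rw [abs_of_nonneg (by linarith), abs_of_nonneg (by linarith)] at h1
        linarith
    exact hji (heq j.1 (hC.mem j hj) i.1 (hC.mem i hi) h2)
  rcases lt_or_gt_of_ne hip with h | h
  · refine ⟨i, hi, true, ?_⟩
    unfold avs
    rw [Finset.mem_filter]
    exact ⟨hp, hσ, hc, hvis, Or.inl ⟨rfl, h⟩⟩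
  · refine ⟨i, hi, false, ?_⟩
    unfold avs
    rw [Finset.mem_filter]
    exact ⟨hp, hσ, hc, hvis, Or.inr ⟨rfl, h⟩⟩

end LSH.Lin
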